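import Pool.Agent.H40.MTLPi

set_option autoImplicit false

namespace Pool.Agent.Results.MP_339e98_lc.SingleChain

open Pool.Agent.H40.MTL

universe u

/-- MTL and IMTL are not single chain complete (for chains in any universe); ΠMTL is. -/
theorem result : ¬ SCC.{u} axMTL ∧ ¬ SCC.{u} axIMTL ∧ SCC.{0} axPiMTL :=
  ⟨not_SCC_MTL, not_SCC_IMTL, SCC_PiMTL⟩

end Pool.Agent.Results.MP_339e98_lc.SingleChain
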